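import Mathlib

/-!
# MP_702e06_al: biautomatic structures, the abstract interface
(paper proof: /team-store/H34_gersten_not_biautomatic.md, Part II)

`IsBiaut G` is the condition of the frozen statement for a group `G`.
`Comb G` collects everything that Part III uses about a biautomatic group:
word norm `N`, length `T` of the chosen shortest accepted word, its point `E r g` at time `r`.
-/

set_option autoImplicit false

namespace H55.BA

/-- the condition of the frozen statement, for an arbitrary group -/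
def IsBiaut (G : Type) [Group G] : Prop :=
  ∃ (α : Type) (_ : Fintype α) (μ : α → G) (σ : Type) (_ : Fintype σ) (M : DFA α σ) (k : ℕ),
    (∀ g, ∃ u ∈ M.accepts, (u.map μ).prod = g) ∧
    ∀ u ∈ M.accepts, ∀ v ∈ M.accepts, ∀ s : List α, s.length ≤ 1 →
      (((u.map μ).prod * (s.map μ).prod = (v.map μ).prod →
          ∀ t : ℕ, ∃ w : List α, w.length ≤ k ∧
            (w.map μ).prod = ((u.take t).map μ).prod⁻¹ * ((v.take t).map μ).prod) ∧
       ((s.map μ).prod * (u.map μ).prod = (v.map μ).prod →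
          ∀ t : ℕ, ∃ w : List α, w.length ≤ k ∧
            (w.map μ).prod =
              ((s.map μ).prod * ((u.take t).map μ).prod)⁻¹ * ((v.take t).map μ).prod))

/-- the consequences used in Part III -/
structure Comb (G : Type) [Group G] where
  /-- word norm -/
  N : G → ℕ
  /-- length of the chosen shortest accepted word -/
  T : G → ℕ
  /-- its point at time `r` -/
  E : ℕ → G → G
  /-- constant -/
  K : ℕ
  N_one : N 1 = 0
  N_mul : ∀ x y, N (x * y) ≤ N x + N y
  N_inv : ∀ x, N x⁻¹ = N x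
  ball : ∀ R : ℕ, {x : G | N x ≤ R}.Finite
  E_zero : ∀ g, E 0 g = 1
  E_end : ∀ g r, T g ≤ r → E r g = g
  E_step : ∀ g r, N ((E r g)⁻¹ * E (r + 1) g) ≤ 1
  T_mul : ∀ g x, T (g * x) ≤ T g + K * N x
  E_mul : ∀ r g x, N ((E r g)⁻¹ * E r (g * x)) ≤ K * N x
  T_E_le : ∀ g s, s ≤ T g → T (E s g) ≤ s + K
  le_T_E : ∀ g s, s ≤ T g → s ≤ T (E s g) + K
  E_E : ∀ g s r, s ≤ T g → r ≤ s → N ((E r (E s g))⁻¹ * E r g) ≤ K
  QC : ∀ (z1 z2 : G) (K' : ℕ), ∃ K'' : ℕ, ∀ (g y : G) (s1 : ℕ), s1 ≤ T g → N (y⁻¹ * E s1 g) ≤ K' →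
    Commute (y⁻¹ * g) z1 → Commute (y⁻¹ * g) z2 → ∀ s, s1 ≤ s →
    ∃ c, Commute c z1 ∧ Commute c z2 ∧ N ((y * c)⁻¹ * E s g) ≤ K''

end H55.BA
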